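import Mathlib
import Pool.Agent.X100.HW.Lim

set_option autoImplicit false

open MeasureTheory Set Filter Topology
open scoped ContDiff Gradient

namespace Pool.Agent.Results.MP_5b99fd_an.BestConstant

/-- The admissible functions of the unconstrained problem: smooth, compactly supported, nonzero. -/
def IsTest {n : ℕ} (u : EuclideanSpace ℝ (Fin n) → ℝ) : Prop :=
  ContDiff ℝ ∞ u ∧ HasCompactSupport u ∧ u ≠ 0

/-- The numerator `∫ (1+|x|²)^α |∇u|²`. -/
noncomputable def energy {n : ℕ} (α : ℝ) (u : EuclideanSpace ℝ (Fin n) → ℝ) : ℝ :=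
  ∫ x, (1 + ‖x‖ ^ 2) ^ α * ‖gradient u x‖ ^ 2

/-- The denominator `∫ (1+|x|²)^(α-1) u²`. -/
noncomputable def mass {n : ℕ} (α : ℝ) (u : EuclideanSpace ℝ (Fin n) → ℝ) : ℝ :=
  ∫ x, (1 + ‖x‖ ^ 2) ^ (α - 1) * u x ^ 2

/-- The set of all quotients of the unconstrained problem. -/
def quotients (n : ℕ) (α : ℝ) : Set ℝ :=
  {r | ∃ u : EuclideanSpace ℝ (Fin n) → ℝ, IsTest u ∧ r = energy α u / mass α u}

/-- The best constant `C(α,n)`: the infimum of all quotients. -/
noncomputable def bestConstant (n : ℕ) (α : ℝ) : ℝ := sInf (quotients n α)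

/-- For every dimension `n ≥ 1` and every `α > -(n-2)/2` (the range without orthogonality
constraint) the best constant of the weighted Hardy inequality is `(n+2α-2)²/4` when
`α ≤ 1 + n/2` and `2n(α-1)` when `α ≥ 1 + n/2`; all denominators are positive and the value is
a genuine greatest lower bound. -/
theorem result (n : ℕ) (hn : 1 ≤ n) (α : ℝ) (hα : -((n : ℝ) - 2) / 2 < α) :
    (∀ u : EuclideanSpace ℝ (Fin n) → ℝ, IsTest u → 0 < mass α u) ∧
    (α ≤ 1 + n / 2 → IsGLB (quotients n α) ((n + 2 * α - 2) ^ 2 / 4) ∧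
      bestConstant n α = (n + 2 * α - 2) ^ 2 / 4) ∧
    (1 + n / 2 ≤ α → IsGLB (quotients n α) (2 * n * (α - 1)) ∧
      bestConstant n α = 2 * n * (α - 1)) := by
  have hmass : ∀ u : EuclideanSpace ℝ (Fin n) → ℝ, IsTest u → 0 < mass α u := by
    rintro u ⟨h1, h2, h3⟩
    unfold mass
    have hc2 : HasCompactSupport (fun x => u x ^ 2) :=
      h2.comp_left (g := fun t : ℝ => t ^ 2) (by simp)
    obtain ⟨x0, hx0⟩ := Function.ne_iff.mp h3
    refine Continuous.integral_pos_of_hasCompactSupport_nonneg_nonzero (x := x0) ?_ hc2.mul_left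
      (fun x => by positivity) ?_
    · exact (X100.HW.gcont (α - 1)).mul (h1.continuous.pow 2)
    · have : 0 < u x0 ^ 2 := by
        have : u x0 ≠ 0 := hx0
        positivity
      positivity
  have hne : (quotients n α).Nonempty := by
    refine ⟨_, X100.HW.chi 0, ⟨X100.HW.chi_contDiff 0, X100.HW.chi_compact 0, fun h => ?_⟩, rfl⟩
    have := congrFun h 0
    rw [X100.HW.chi_eq_one 0 (by simp)] at this
    exact one_ne_zero this
  have hlow : ∀ c : ℝ, (∀ u : EuclideanSpace ℝ (Fin n) → ℝ, IsTest u → c * mass α u ≤ energy α u) →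
      c ∈ lowerBounds (quotients n α) := by
    rintro c hc r ⟨u, hu, rfl⟩
    rw [le_div_iff₀ (hmass u hu)]
    exact hc u hu
  have hup : ∀ c ∈ lowerBounds (quotients n α), ∀ a : ℝ, (n : ℝ) / 2 < 2 * a - α + 1 →
      c ≤ 2 * n * a ^ 2 / (2 * a - α + 1) := by
    intro c hc a ha
    refine X100.HW.upper (α := α) (fun u h1 h2 h3 => ?_) ha
    have h := hc ⟨u, ⟨h1, h2, h3⟩, rfl⟩
    rwa [le_div_iff₀ (hmass u ⟨h1, h2, h3⟩)] at h
  have hn1 : (1 : ℝ) ≤ n := by exact_mod_cast hn
  have hlim : ∀ c ∈ lowerBounds (quotients n α), c ≤ (n + 2 * α - 2) ^ 2 / 4 := by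
    intro c hc
    set a0 : ℝ := (n + 2 * α - 2) / 4 with ha0
    have h1 : Tendsto (fun a : ℝ => 2 * n * a ^ 2 / (2 * a - α + 1)) (𝓝[>] a0)
        (𝓝 (2 * n * a0 ^ 2 / (2 * a0 - α + 1))) := by
      refine Tendsto.mono_left ?_ nhdsWithin_le_nhds
      refine ContinuousAt.tendsto ?_
      refine ContinuousAt.div (by fun_prop) (by fun_prop) ?_
      have : 2 * a0 - α + 1 = n / 2 := by rw [ha0]; ring
      rw [this]
      positivity
    have h2 : 2 * n * a0 ^ 2 / (2 * a0 - α + 1) = (n + 2 * α - 2) ^ 2 / 4 := by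
      have : 2 * a0 - α + 1 = n / 2 := by rw [ha0]; ring
      rw [this, ha0]
      field_simp
      ring
    rw [← h2]
    refine ge_of_tendsto h1 ?_
    filter_upwards [self_mem_nhdsWithin] with a ha
    refine hup c hc a ?_
    have : a0 < a := ha
    rw [ha0] at this
    linarith
  refine ⟨hmass, fun h => ?_, fun h => ?_⟩
  · have hg : IsGLB (quotients n α) ((n + 2 * α - 2) ^ 2 / 4) :=
      ⟨hlow _ fun u hu => X100.HW.lower_one hu.1 hu.2.1 α hα.le h, hlim⟩
    exact ⟨hg, hg.csInf_eq hne⟩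
  · have hg : IsGLB (quotients n α) (2 * n * (α - 1)) := by
      refine ⟨hlow _ fun u hu => X100.HW.lower_two hu.1 hu.2.1 α, fun c hc => ?_⟩
      rcases h.lt_or_eq with h' | h'
      · have h1 := hup c hc (α - 1) (by linarith)
        have h2 : 2 * (α - 1) - α + 1 = α - 1 := by ring
        have h3 : 0 < α - 1 := by
          have : (0 : ℝ) < (n : ℝ) / 2 := by positivity
          linarith
        rw [h2] at h1
        have h4 : 2 * n * (α - 1) ^ 2 / (α - 1) = 2 * n * (α - 1) := by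
          field_simp
        rwa [h4] at h1
      · have h1 := hlim c hc
        have h2 : ((n : ℝ) + 2 * α - 2) ^ 2 / 4 = 2 * n * (α - 1) := by
          rw [← h']; ring
        rwa [h2] at h1
    exact ⟨hg, hg.csInf_eq hne⟩

end Pool.Agent.Results.MP_5b99fd_an.BestConstant
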